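import Mathlib

set_option autoImplicit false

namespace Pool.Agent.H.MP_2b2760_co

open Relation Finset

/-- forward neighbours in the triangulated grid. -/
def fw (p q : ℕ × ℕ) : Prop :=
  q = (p.1 + 1, p.2) ∨ q = (p.1, p.2 + 1) ∨ q = (p.1 + 1, p.2 + 1)

/-- monochromatic adjacency in the grid with sides `0..n`. -/
def ge (n : ℕ) (g : ℕ × ℕ → Bool) (p q : ℕ × ℕ) : Prop :=
  p.1 ≤ n ∧ p.2 ≤ n ∧ q.1 ≤ n ∧ q.2 ≤ n ∧ (fw p q ∨ fw q p) ∧ g p = g q

lemma ge_symm {n : ℕ} {g : ℕ × ℕ → Bool} {p q : ℕ × ℕ} (h : ge n g p q) : ge n g q p :=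
  ⟨h.2.2.1, h.2.2.2.1, h.1, h.2.1, h.2.2.2.2.1.symm, h.2.2.2.2.2.symm⟩

lemma ivt {α : Type} (e : α → α → Prop) (φ : α → ℕ) (hφ : ∀ p q, e p q → φ p ≤ φ q + 1)
    {p q : α} (h : ReflTransGen e p q) : ∀ a, φ q ≤ a → a ≤ φ p →
      ∃ r, ReflTransGen e p r ∧ φ r = a := by
  induction h with
  | refl => intro a h1 h2; exact ⟨p, .refl, by omega⟩
  | @tail b c hb hbc ih =>
    intro a h1 h2
    by_cases h3 : φ b ≤ a
    · exact ih a h3 h2
    · have := hφ _ _ hbc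
      exact ⟨c, hb.tail hbc, by omega⟩

lemma cross {α : Type} (e : α → α → Prop) (φ : α → ℕ) (hφ : ∀ p q, e p q → φ p ≤ φ q + 1)
    {p q : α} (h : ReflTransGen e p q) (hq : φ q = 0) :
    ∃ S : Finset α, φ p + 1 ≤ S.card ∧ ∀ r ∈ S, ReflTransGen e p r := by
  classical
  have := fun a : Fin (φ p + 1) => ivt e φ hφ h a (by omega) (by omega)
  choose r hr hr' using this
  refine ⟨univ.image r, ?_, ?_⟩
  · rw [card_image_of_injective _ (fun a b hab => Fin.ext (by rw [← hr' a, ← hr' b, hab]))]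
    simp
  · intro x hx
    obtain ⟨a, -, rfl⟩ := mem_image.1 hx
    exact hr a

theorem hex (n : ℕ) (g : ℕ × ℕ → Bool) : ∃ p : ℕ × ℕ, p.1 ≤ n ∧ p.2 ≤ n ∧
    ∃ S : Finset (ℕ × ℕ), n + 1 ≤ S.card ∧ ∀ r ∈ S, ReflTransGen (ge n g) p r := by
  classical
  by_contra hn
  have e1 : ∀ p q, ge n g p q → p.1 ≤ q.1 + 1 := by
    rintro ⟨a, b⟩ ⟨c, d⟩ ⟨-, -, -, -, h, -⟩
    simp only [fw, Prod.mk.injEq] at h ⊢; omega
  have e2 : ∀ p q, ge n g p q → p.2 ≤ q.2 + 1 := by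
    rintro ⟨a, b⟩ ⟨c, d⟩ ⟨-, -, -, -, h, -⟩
    simp only [fw, Prod.mk.injEq] at h ⊢; omega
  let h : ℕ × ℕ → ℤ := fun p => if ∃ q, ReflTransGen (ge n g) p q ∧ q.1 = 0 then 1 else 0
  let k : ℕ × ℕ → ℤ := fun p => if ∃ q, ReflTransGen (ge n g) p q ∧ q.2 = 0 then 1 else 0
  have eqv : ∀ (P : ℕ × ℕ → Prop) p q, ge n g p q →
      ((∃ r, ReflTransGen (ge n g) p r ∧ P r) ↔ ∃ r, ReflTransGen (ge n g) q r ∧ P r) :=
    fun P p q hpq => ⟨fun ⟨r, a, b⟩ => ⟨r, .head (ge_symm hpq) a, b⟩,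
      fun ⟨r, a, b⟩ => ⟨r, .head hpq a, b⟩⟩
  have hk : ∀ p q, ge n g p q → h p = h q ∧ k p = k q := by
    intro p q hpq
    simp only [h, k, eqv (fun r => r.1 = 0) p q hpq, eqv (fun r => r.2 = 0) p q hpq, and_self]
  have h0 : ∀ j, h (0, j) = 1 := fun j => if_pos ⟨_, .refl, rfl⟩
  have k0 : ∀ i, k (i, 0) = 1 := fun i => if_pos ⟨_, .refl, rfl⟩
  have h1 : ∀ j ≤ n, h (n, j) = 0 := by
    intro j hj
    refine if_neg fun ⟨q, a, b⟩ => hn ⟨(n, j), le_rfl, hj, ?_⟩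
    exact cross _ Prod.fst e1 a b
  have k1 : ∀ i ≤ n, k (i, n) = 0 := by
    intro i hi
    refine if_neg fun ⟨q, a, b⟩ => hn ⟨(i, n), hi, le_rfl, ?_⟩
    exact cross _ Prod.snd e2 a b
  let w : ℕ × ℕ → ℕ × ℕ → ℤ := fun p q => (k p + k q) * (h q - h p)
  have tri : ∀ p q r : ℕ × ℕ, p.1 ≤ n → p.2 ≤ n → q.1 ≤ n → q.2 ≤ n → r.1 ≤ n → r.2 ≤ n →
      fw p q → fw q r → fw p r → w p q + w q r = w p r := by
    intro p q r a1 a2 a3 a4 a5 a6 f1 f2 f3
    have : g p = g q ∨ g q = g r ∨ g p = g r := by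
      cases g p <;> cases g q <;> cases g r <;> simp
    rcases this with e | e | e
    · obtain ⟨x, y⟩ := hk p q ⟨a1, a2, a3, a4, .inl f1, e⟩
      simp only [w, x, y]; ring
    · obtain ⟨x, y⟩ := hk q r ⟨a3, a4, a5, a6, .inl f2, e⟩
      simp only [w, x, y]; ring
    · obtain ⟨x, y⟩ := hk p r ⟨a1, a2, a5, a6, .inl f3, e⟩
      simp only [w, x, y]; ring
  have sq : ∀ i ∈ range n, ∀ j ∈ range n,
      w (i, j + 1) (i + 1, j + 1) - w (i, j) (i + 1, j) =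
        w (i + 1, j) (i + 1, j + 1) - w (i, j) (i, j + 1) := by
    intro i hi j hj
    rw [mem_range] at hi hj
    have a := tri (i, j) (i + 1, j) (i + 1, j + 1) (by simp; omega) (by simp; omega)
      (by simp; omega) (by simp; omega) (by simp; omega) (by simp; omega)
      (by simp [fw]) (by simp [fw]) (by simp [fw])
    have b := tri (i, j) (i, j + 1) (i + 1, j + 1) (by simp; omega) (by simp; omega)
      (by simp; omega) (by simp; omega) (by simp; omega) (by simp; omega)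
      (by simp [fw]) (by simp [fw]) (by simp [fw])
    linarith
  have s1 : ∑ i ∈ range n, ∑ j ∈ range n, (w (i, j + 1) (i + 1, j + 1) - w (i, j) (i + 1, j)) =
      ∑ j ∈ range n, ∑ i ∈ range n, (w (i + 1, j) (i + 1, j + 1) - w (i, j) (i, j + 1)) := by
    rw [sum_comm (s := range n) (t := range n)
      (f := fun j i => w (i + 1, j) (i + 1, j + 1) - w (i, j) (i, j + 1))]
    exact sum_congr rfl fun i hi => sum_congr rfl fun j hj => sq i hi j hj
  have s2 : ∀ i ∈ range n, ∑ j ∈ range n, (w (i, j + 1) (i + 1, j + 1) - w (i, j) (i + 1, j)) =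
      (-2) * (h (i + 1, 0) - h (i, 0)) := by
    intro i hi
    rw [mem_range] at hi
    rw [sum_range_sub (fun j => w (i, j) (i + 1, j))]
    simp only [w, k0, k1 i (by omega), k1 (i + 1) (by omega)]; ring
  have s3 : ∀ j ∈ range n, ∑ i ∈ range n, (w (i + 1, j) (i + 1, j + 1) - w (i, j) (i, j + 1)) =
      0 := by
    intro j hj
    rw [mem_range] at hj
    rw [sum_range_sub (fun i => w (i, j) (i, j + 1))]
    simp only [w, h0, h1 j (by omega), h1 (j + 1) (by omega)]; ring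
  rw [sum_congr rfl s2, sum_congr rfl s3, ← mul_sum, sum_range_sub (fun i => h (i, 0)), h0,
    h1 0 (by omega)] at s1
  simp at s1

lemma block (D : Finset ℕ) (K L : ℕ) (hD : D.card ≤ K) :
    ∃ m ≤ K, ∀ r < L, m * L + r ∉ D := by
  classical
  have : (D.image (· / L)).card < (range (K + 1)).card := by
    rw [card_range]; exact Nat.lt_succ_of_le (card_image_le.trans hD)
  obtain ⟨m, hm, hm'⟩ := exists_mem_notMem_of_card_lt_card this
  refine ⟨m, by simpa [Nat.lt_succ_iff] using hm, fun r hr h => hm' (mem_image.2 ⟨_, h, ?_⟩)⟩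
  rw [mul_comm, Nat.mul_add_div (by omega), Nat.div_eq_of_lt hr, add_zero]

end Pool.Agent.H.MP_2b2760_co
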