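import Mathlib
import Pool.Agent.H.MP_2b2760_co.Hex
import Pool.Agent.Lib.helper5.PTree

set_option autoImplicit false

namespace Pool.Agent.H.MP_2b2760_co

open Relation Finset

abbrev R := List ℕ × Option (ℕ × ℕ)

def val (N F W : ℕ) : R → Prop
  | (l, none) => l ≠ [] ∧ l.length ≤ N ∧ ∀ a ∈ l, a ≤ F
  | (u, some (i, j)) => u.length = N ∧ (∀ a ∈ u, a ≤ F) ∧ i < W ∧ j < N

def nxt : R → List R
  | ([], none) => []
  | (a :: w, none) => if a = 0 then [] else [((a + 1) :: w, none)]
  | (u, some (i, j)) => [(u, some (i + 1, j)), (u, some (i, j + 1)), (u, some (i + 1, j + 1))]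

def prv : R → List R
  | ([], none) => []
  | (a :: w, none) => [((a - 1) :: w, none)]
  | (u, some (i, j)) => [(u, some (i - 1, j)), (u, some (i, j - 1)), (u, some (i - 1, j - 1))]

def pa : R → R
  | ([], none) => ([], none)
  | (_ :: w, none) => (0 :: w, none)
  | (u, some (_, j)) => (u.drop (u.length - (j + 1)), none)

def G0 : SimpleGraph R := SimpleGraph.fromRel fun x y => y ∈ nxt x ∨ y = pa x

def lay : R → ℕ
  | (l, none) => l.length
  | (_, some (_, j)) => j + 1

def inb : R → R → Prop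
  | ([], none), _ => False
  | (a :: w, none), v => v = (a :: w, none) ∨ v = ((a - 1) :: w, none) ∨ v = (0 :: w, none) ∨
      (v.2 = none ∧ v.1 <:+ w)
  | (u, some (i, j)), v => (∃ j' ≤ j, v = (u, some (i, j'))) ∨
      (∃ j', j ≤ j' + 1 ∧ 0 < i ∧ v = (u, some (i - 1, j'))) ∨ (v.2 = none ∧ v.1 <:+ u)

def par : R → R
  | ([], none) => ([], none)
  | (a :: w, none) => if a = 0 then (w, none) else ((a - 1) :: w, none)
  | (u, some (i, j)) => if 0 < j then (u, some (i, j - 1)) else
      if 0 < i then (u, some (i - 1, u.length - 1)) else (u, none)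

def rk : R → ℕ
  | (l, none) => l.sum + l.length
  | (u, some (i, j)) => u.sum + u.length + 1 + i * u.length + j

def cand : R → ℕ → List R
  | ([], none), _ => []
  | (a :: w, none), n => [(a :: w, none), ((a - 1) :: w, none), (0 :: w, none),
      (w.drop (w.length - n), none)]
  | (u, some (i, _)), n => [(u, some (i, n - 1)), (u, some (i - 1, n - 1)),
      (u.drop (u.length - n), none)]

variable {N F W : ℕ}

lemma nxt_prv {x y : R} (h : y ∈ nxt x) : x ∈ prv y := by
  rcases x with ⟨_ | ⟨a, w⟩, _ | ⟨i, j⟩⟩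
  · simp [nxt] at h
  · simp only [nxt, List.mem_cons, List.not_mem_nil, or_false] at h
    rcases h with rfl | rfl | rfl <;> simp [prv]
  · by_cases ha : a = 0
    · simp [nxt, ha] at h
    · simp only [nxt, ha, if_false, List.mem_cons, List.not_mem_nil, or_false] at h
      subst h; simp [prv]
  · simp only [nxt, List.mem_cons, List.not_mem_nil, or_false] at h
    rcases h with rfl | rfl | rfl <;> simp [prv]

lemma len_nb (x : R) : (pa x :: (nxt x ++ prv x)).length ≤ 7 := by
  rcases x with ⟨_ | ⟨a, w⟩, _ | ⟨i, j⟩⟩ <;> simp [nxt, prv]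
  split_ifs <;> simp

lemma adj_nb {x z : R} (h : G0.Adj x z) : z ∈ pa x :: (nxt x ++ prv x) ∨ x = pa z := by
  obtain ⟨-, (h | h) | (h | h)⟩ := h
  · simp [h]
  · simp [h]
  · simp [nxt_prv h]
  · exact .inr h

lemma no_k (φ : Fin 2 ⊕ Fin 15 → R) (hi : Function.Injective φ)
    (h : ∀ a b, G0.Adj (φ (.inl a)) (φ (.inr b))) : False := by
  classical
  set x := φ (.inl 0)
  set y := φ (.inl 1)
  have hxy : x ≠ y := fun e => by simpa using hi e
  let L := (pa x :: (nxt x ++ prv x)) ++ (pa y :: (nxt y ++ prv y))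
  have hL : L.toFinset.card ≤ 14 := by
    refine (List.toFinset_card_le L).trans ?_
    have := len_nb x; have := len_nb y
    simp only [L, List.length_append] at *; omega
  have : (univ : Finset (Fin 15)).card ≤ L.toFinset.card := by
    refine card_le_card_of_injOn (fun b => φ (.inr b)) (fun b _ => ?_)
      (fun a _ b _ e => by simpa using hi e)
    simp only [mem_coe, List.mem_toFinset, L, List.mem_append]
    rcases adj_nb (h 0 b) with h1 | h1
    · exact .inl h1
    rcases adj_nb (h 1 b) with h2 | h2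
    · exact .inr h2
    exact absurd (h1.trans h2.symm) hxy
  simp at this; omega

lemma lay_nxt {x y : R} (h : y ∈ nxt x) : lay x ≤ lay y + 1 ∧ lay y ≤ lay x + 1 := by
  rcases x with ⟨_ | ⟨a, w⟩, _ | ⟨i, j⟩⟩
  · simp [nxt] at h
  · simp only [nxt, List.mem_cons, List.not_mem_nil, or_false] at h
    rcases h with rfl | rfl | rfl <;> simp [lay]
  · by_cases ha : a = 0
    · simp [nxt, ha] at h
    · simp only [nxt, ha, if_false, List.mem_cons, List.not_mem_nil, or_false] at h
      subst h; simp [lay]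
  · simp only [nxt, List.mem_cons, List.not_mem_nil, or_false] at h
    rcases h with rfl | rfl | rfl <;> simp [lay]

lemma lay_pa {x : R} (hx : val N F W x) : lay (pa x) = lay x := by
  rcases x with ⟨_ | ⟨a, w⟩, _ | ⟨i, j⟩⟩
  · rfl
  · simp [val] at hx; omega
  · rfl
  · obtain ⟨h1, -, -, h2⟩ := hx
    simp only [pa, lay, List.length_drop]; omega

lemma lay_adj {x y : R} (hx : val N F W x) (hy : val N F W y) (h : G0.Adj x y) :
    lay x ≤ lay y + 1 := by
  obtain ⟨-, (h | h) | (h | h)⟩ := h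
  · exact (lay_nxt h).1
  · rw [h, lay_pa hx]; omega
  · exact (lay_nxt h).2
  · rw [h, lay_pa hy]; omega

lemma inb_self {x : R} (hx : val N F W x) : inb x x := by
  rcases x with ⟨_ | ⟨a, w⟩, _ | ⟨i, j⟩⟩
  · simp [val] at hx
  · exact .inl ⟨j, le_rfl, rfl⟩
  · exact .inl rfl
  · exact .inl ⟨j, le_rfl, rfl⟩

lemma inb_nxt {x y : R} (h : y ∈ nxt x) : inb y x := by
  have gr : ∀ (u : List ℕ) (i j : ℕ), y ∈ nxt (u, some (i, j)) → inb y (u, some (i, j)) := by
    intro u i j h
    have h' : y = (u, some (i + 1, j)) ∨ y = (u, some (i, j + 1)) ∨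
        y = (u, some (i + 1, j + 1)) := by
      cases u <;> simpa [nxt] using h
    rcases h' with rfl | rfl | rfl <;> cases u
    all_goals first
      | exact .inr (.inl ⟨j, by omega, by omega, rfl⟩)
      | exact .inl ⟨j, by omega, rfl⟩
  rcases x with ⟨_ | ⟨a, w⟩, _ | ⟨i, j⟩⟩
  · simp [nxt] at h
  · exact gr _ _ _ h
  · by_cases ha : a = 0
    · simp [nxt, ha] at h
    · simp only [nxt, ha, if_false, List.mem_cons, List.not_mem_nil, or_false] at h
      subst h; simp [inb]
  · exact gr _ _ _ h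

lemma inb_pa {x : R} (hx : val N F W x) : inb x (pa x) := by
  rcases x with ⟨_ | ⟨a, w⟩, _ | ⟨i, j⟩⟩
  · simp [val] at hx
  · exact .inr (.inr ⟨rfl, List.drop_suffix _ _⟩)
  · exact .inr (.inr (.inl rfl))
  · exact .inr (.inr ⟨rfl, List.drop_suffix _ _⟩)

lemma inb_cand {x v : R} (h : inb x v) : v ∈ cand x (lay v) ∧ (cand x (lay v)).length ≤ 4 := by
  have gr : ∀ (u : List ℕ) (i j : ℕ), ((∃ j' ≤ j, v = (u, some (i, j'))) ∨
      (∃ j', j ≤ j' + 1 ∧ 0 < i ∧ v = (u, some (i - 1, j'))) ∨ (v.2 = none ∧ v.1 <:+ u)) →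
      v ∈ [(u, some (i, lay v - 1)), (u, some (i - 1, lay v - 1)),
        (u.drop (u.length - lay v), none)] := by
    rintro u i j (⟨j', -, rfl⟩ | ⟨j', -, -, rfl⟩ | ⟨h1, h2⟩)
    · simp [lay]
    · simp [lay]
    · obtain ⟨l, o⟩ := v
      simp only at h1 h2; subst h1
      simp only [lay, ← List.suffix_iff_eq_drop.1 h2]; simp
  rcases x with ⟨_ | ⟨a, w⟩, _ | ⟨i, j⟩⟩
  · exact h.elim
  · exact ⟨gr _ _ _ h, by simp [cand]⟩
  · refine ⟨?_, by simp [cand]⟩
    rcases h with rfl | rfl | rfl | ⟨h1, h2⟩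
    · simp [cand]
    · simp [cand]
    · simp [cand]
    · obtain ⟨l, o⟩ := v
      simp only at h1 h2; subst h1
      simp only [cand, lay, ← List.suffix_iff_eq_drop.1 h2]; simp
  · exact ⟨gr _ _ _ h, by simp [cand]⟩

lemma inb_suf {u : List ℕ} (hu : u ≠ []) {v : R} (h1 : v.2 = none) (h2 : v.1 <:+ u) :
    inb (u, none) v := by
  obtain ⟨l, o⟩ := v
  simp only at h1 h2; subst h1
  rcases u with _ | ⟨b, w⟩
  · exact absurd rfl hu
  · rcases List.suffix_cons_iff.1 h2 with rfl | h
    · exact .inl rfl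
    · exact .inr (.inr (.inr ⟨rfl, h⟩))

lemma inb_grid (u : List ℕ) (i j : ℕ) (v : R) : inb (u, some (i, j)) v ↔
    (∃ j' ≤ j, v = (u, some (i, j'))) ∨
      (∃ j', j ≤ j' + 1 ∧ 0 < i ∧ v = (u, some (i - 1, j'))) ∨ (v.2 = none ∧ v.1 <:+ u) := by
  cases u <;> rfl

lemma par_grid (u : List ℕ) (i j : ℕ) : par (u, some (i, j)) = if 0 < j then (u, some (i, j - 1))
    else if 0 < i then (u, some (i - 1, u.length - 1)) else (u, none) := by
  cases u <;> rfl

lemma inb_par {x v : R} (hx : val N F W x) (hv : val N F W v) (h : inb x v) (hne : x ≠ v) :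
    x ≠ ([0], none) ∧ inb (par x) v := by
  rcases x with ⟨u, _ | ⟨i, j⟩⟩
  · rcases u with _ | ⟨a, w⟩
    · exact h.elim
    by_cases ha : a = 0
    · subst ha
      rcases h with rfl | rfl | rfl | ⟨h1, h2⟩
      · exact absurd rfl hne
      · exact absurd rfl hne
      · exact absurd rfl hne
      · have hw : w ≠ [] := by
          rintro rfl
          obtain ⟨l, o⟩ := v
          simp only at h1 h2; subst h1
          exact hv.1 (List.suffix_nil.1 h2)
        exact ⟨by simpa using hw, by simpa [par] using inb_suf hw h1 h2⟩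
    · refine ⟨by simp [ha], ?_⟩
      simp only [par, ha, if_false]
      rcases h with rfl | rfl | rfl | h
      · exact absurd rfl hne
      · exact .inl rfl
      · exact .inr (.inr (.inl rfl))
      · exact .inr (.inr (.inr h))
  · refine ⟨by simp, ?_⟩
    obtain ⟨h1, -, -, h2⟩ := hx
    rw [inb_grid] at h
    rw [par_grid]
    split_ifs with hj hi
    · rw [inb_grid]
      rcases h with ⟨j', a, rfl⟩ | ⟨j', a, b, rfl⟩ | h
      · refine .inl ⟨j', ?_, rfl⟩
        have : j ≠ j' := fun e => hne (by rw [e])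
        omega
      · exact .inr (.inl ⟨j', by omega, b, rfl⟩)
      · exact .inr (.inr h)
    · rw [inb_grid]
      rcases h with ⟨j', a, rfl⟩ | ⟨j', a, b, rfl⟩ | h
      · exact absurd (by rw [show j = j' by omega]) hne
      · exact .inl ⟨j', by have := hv.2.2.2; omega, rfl⟩
      · exact .inr (.inr h)
    · rcases h with ⟨j', a, rfl⟩ | ⟨j', a, b, rfl⟩ | h
      · exact absurd (by rw [show j = j' by omega]) hne
      · omega
      · exact inb_suf (by rintro rfl; simp at h1; omega) h.1 h.2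

lemma par_val {x : R} (hx : val N F W x) (hr : x ≠ ([0], none)) :
    val N F W (par x) ∧ rk (par x) < rk x := by
  rcases x with ⟨u, _ | ⟨i, j⟩⟩
  · rcases u with _ | ⟨a, w⟩
    · exact absurd rfl hx.1
    obtain ⟨-, h1, h2⟩ := hx
    simp only [List.length_cons, List.mem_cons, forall_eq_or_imp] at h1 h2
    by_cases ha : a = 0
    · subst ha
      exact ⟨⟨by simpa using hr, by omega, h2.2⟩, by simp [par, rk]⟩
    · simp only [par, ha, if_false]
      refine ⟨⟨by simp, by simpa using h1, ?_⟩, by simp [rk]; omega⟩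
      simp only [List.mem_cons, forall_eq_or_imp]
      exact ⟨by omega, h2.2⟩
  · obtain ⟨h1, h2, h3, h4⟩ := hx
    rw [par_grid]
    split_ifs with hj hi
    · exact ⟨⟨h1, h2, h3, by omega⟩, by simp only [rk]; omega⟩
    · refine ⟨⟨h1, h2, by omega, by omega⟩, ?_⟩
      obtain ⟨i, rfl⟩ : ∃ i', i = i' + 1 := ⟨i - 1, by omega⟩
      simp only [rk, Nat.add_sub_cancel, add_mul]; omega
    · exact ⟨⟨by rintro rfl; simp at h1; omega, h1.le, h2⟩, by simp only [rk]; omega⟩

lemma fin_lists (N F : ℕ) : {l : List ℕ | l.length ≤ N ∧ ∀ a ∈ l, a ≤ F}.Finite := by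
  induction N with
  | zero => exact (Set.finite_singleton []).subset fun l hl => by simpa using hl.1
  | succ n ih =>
    refine (((Set.finite_Iic F).image2 List.cons ih).insert []).subset ?_
    rintro (_ | ⟨a, w⟩) ⟨h1, h2⟩
    · simp
    · simp only [List.length_cons, List.mem_cons, forall_eq_or_imp] at h1 h2
      exact .inr ⟨a, h2.1, w, ⟨by omega, h2.2⟩, rfl⟩

lemma fin_val (N F W : ℕ) : {x : R | val N F W x}.Finite := by
  refine ((fin_lists N F).prod
    ((((Set.finite_Iio W).prod (Set.finite_Iio N)).image some).insert none)).subset ?_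
  rintro ⟨u, _ | ⟨i, j⟩⟩ h
  · exact ⟨⟨h.2.1, h.2.2⟩, .inl rfl⟩
  · exact ⟨⟨h.1.le, h.2.1⟩, .inr ⟨(i, j), ⟨h.2.2.1, h.2.2.2⟩, rfl⟩⟩

end Pool.Agent.H.MP_2b2760_co
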