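import Mathlib
import Pool.Agent.H.MP_2b2760_co.A

set_option autoImplicit false

namespace Pool.Agent.H.MP_2b2760_co

open Relation Finset

def E (N F W : ℕ) (c : R → Fin 3) (x y : R) : Prop :=
  val N F W x ∧ val N F W y ∧ G0.Adj x y ∧ c x = c y

section force
variable {N F W C : ℕ} {c : R → Fin 3}
  (H : ∀ v, val N F W v → ∀ S : Finset R, (∀ y ∈ S, ReflTransGen (E N F W c) v y) → S.card ≤ C)
include H

lemma star {v : R} (hv : val N F W v) (D : Finset ℕ) (φ : ℕ → R) (hφ : Function.Injective φ)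
    (h : ∀ a ∈ D, E N F W c v (φ a)) : D.card ≤ C := by
  classical
  rw [← card_image_of_injective D hφ]
  refine H v hv _ fun y hy => ?_
  obtain ⟨a, ha, rfl⟩ := mem_image.1 hy
  exact .single (h a ha)

lemma fan (hF : F = (C + 1) * (C + 1)) (w : List ℕ) (h1 : w.length < N) (h2 : ∀ a ∈ w, a ≤ F) :
    ∃ a ≤ F, c (a :: w, none) = 0 := by
  classical
  by_contra hn
  push Not at hn
  have hv : ∀ a ≤ F, val N F W (a :: w, none) := fun a ha =>
    ⟨by simp, by simpa using h1, by simpa using ⟨ha, h2⟩⟩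
  let D := (range F).filter fun a => c (0 :: w, none) = c ((a + 1) :: w, none)
  have hD : D.card ≤ C := by
    refine star H (hv 0 (by omega)) D (fun a => ((a + 1) :: w, none)) (fun a b e => by simpa using e)
      fun a ha => ?_
    obtain ⟨a1, a2⟩ := mem_filter.1 ha
    rw [mem_range] at a1
    exact ⟨hv 0 (by omega), hv _ a1, ⟨by simp, .inr (.inr rfl)⟩, a2⟩
  obtain ⟨m, hm, hb⟩ := block D C (C + 1) hD
  have lt : ∀ r < C + 1, m * (C + 1) + r < F := by
    intro r hr
    have := Nat.mul_le_mul_right (C + 1) hm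
    rw [hF]; linarith [add_mul C 1 (C + 1)]
  have col : ∀ r < C + 1, c ((m * (C + 1) + r + 1) :: w, none) = - c (0 :: w, none) := by
    intro r hr
    have a1 : c (0 :: w, none) ≠ c ((m * (C + 1) + r + 1) :: w, none) := fun e =>
      hb r hr (mem_filter.2 ⟨mem_range.2 (lt r hr), e⟩)
    have a2 := hn _ (lt r hr)
    have a3 := hn 0 (by omega)
    revert a1 a2 a3
    generalize c (0 :: w, none) = x
    generalize c ((m * (C + 1) + r + 1) :: w, none) = y
    revert x y; decide
  have rch : ∀ r < C + 1, ReflTransGen (E N F W c) ((m * (C + 1) + 0 + 1) :: w, none)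
      ((m * (C + 1) + r + 1) :: w, none) := by
    intro r
    induction r with
    | zero => exact fun _ => .refl
    | succ r ih =>
      intro hr
      refine (ih (by omega)).tail ⟨hv _ (lt r (by omega)), hv _ (lt _ hr),
        ⟨by simp, .inl (.inl (by simp [nxt, add_assoc]))⟩, ?_⟩
      rw [col r (by omega), col _ hr]
  have := H _ (hv _ (lt 0 (by omega)))
    ((range (C + 1)).image fun r => (((m * (C + 1) + r + 1) :: w, none) : R)) (by
      intro y hy
      obtain ⟨r, hr, rfl⟩ := mem_image.1 hy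
      exact rch r (mem_range.1 hr))
  rw [card_image_of_injective _ (fun a b e => by simpa using e), card_range] at this
  omega

lemma word (hF : F = (C + 1) * (C + 1)) : ∀ n ≤ N, ∃ u : List ℕ, u.length = n ∧ (∀ a ∈ u, a ≤ F) ∧
    ∀ l, l ≠ [] → l <:+ u → c (l, none) = 0 := by
  intro n
  induction n with
  | zero => exact fun _ => ⟨[], rfl, by simp, fun l h1 h2 => absurd (List.suffix_nil.1 h2) h1⟩
  | succ n ih =>
    intro hn
    obtain ⟨w, h1, h2, h3⟩ := ih (by omega)
    obtain ⟨a, ha, hc⟩ := fan H hF w (by omega) h2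
    refine ⟨a :: w, by simp [h1], by simpa using ⟨ha, h2⟩, fun l l1 l2 => ?_⟩
    rcases List.suffix_cons_iff.1 l2 with rfl | l2
    · exact hc
    · exact h3 l l1 l2

lemma absurd_all (hF : F = (C + 1) * (C + 1)) (hN : N = C + 1) (hW : W = (N * C + 1) * N) :
    False := by
  classical
  obtain ⟨u, h1, h2, h3⟩ := word H hF N le_rfl
  let D := fun j => (range W).filter fun i => c (u, some (i, j)) = 0
  have hD : ∀ j ∈ range N, (D j).card ≤ C := by
    intro j hj
    rw [mem_range] at hj
    have hne : u.drop (u.length - (j + 1)) ≠ [] := by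
      intro e
      have := congrArg List.length e
      simp at this; omega
    have hv : val N F W (u.drop (u.length - (j + 1)), none) :=
      ⟨hne, by simp; omega, fun a ha => h2 a (List.mem_of_mem_drop ha)⟩
    refine star H hv (D j) (fun i => (u, some (i, j))) (fun a b e => by simpa using e)
      fun i hi => ?_
    obtain ⟨a1, a2⟩ := mem_filter.1 hi
    refine ⟨hv, ⟨h1, h2, mem_range.1 a1, hj⟩, ⟨by simp, .inr (.inr (by cases u <;> rfl))⟩, ?_⟩
    rw [a2, h3 _ hne (List.drop_suffix _ _)]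
  have hU : ((range N).biUnion D).card ≤ N * C := by
    simpa using card_biUnion_le_card_mul _ _ _ hD
  obtain ⟨m, hm, hb⟩ := block _ (N * C) N hU
  have lt : ∀ r ≤ C, m * N + r < W := by
    intro r hr
    have := Nat.mul_le_mul_right N hm
    rw [hW]; linarith [add_mul (N * C) 1 N]
  let ψ : ℕ × ℕ → R := fun p => (u, some (m * N + p.1, p.2))
  have hv : ∀ p : ℕ × ℕ, p.1 ≤ C → p.2 ≤ C → val N F W (ψ p) := fun p a b =>
    ⟨h1, h2, lt _ a, by omega⟩
  have nz : ∀ p : ℕ × ℕ, p.1 ≤ C → p.2 ≤ C → c (ψ p) ≠ 0 := fun p a b e =>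
    hb p.1 (by omega) (mem_biUnion.2 ⟨p.2, mem_range.2 (by omega),
      mem_filter.2 ⟨mem_range.2 (lt _ a), e⟩⟩)
  have adj : ∀ p q, fw p q → G0.Adj (ψ p) (ψ q) := by
    rintro ⟨i, j⟩ q (rfl | rfl | rfl)
    all_goals exact ⟨by simp [ψ], .inl (.inl (by cases u <;> simp [ψ, nxt, add_assoc]))⟩
  obtain ⟨p, p1, p2, S, hS, hr⟩ := hex C fun p => decide (c (ψ p) = 1)
  have := H _ (hv p p1 p2) (S.image ψ) (by
    intro y hy
    obtain ⟨q, hq, rfl⟩ := mem_image.1 hy
    refine ReflTransGen.lift ψ ?_ _ _ (hr q hq)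
    rintro a b ⟨a1, a2, b1, b2, f, e⟩
    refine ⟨hv a a1 a2, hv b b1 b2, f.elim (adj a b) fun f => (adj b a f).symm, ?_⟩
    have x := nz a a1 a2
    have y := nz b b1 b2
    replace e : decide (c (ψ a) = 1) = decide (c (ψ b) = 1) := e
    revert e x y
    generalize c (ψ a) = s
    generalize c (ψ b) = t
    revert s t; decide)
  rw [card_image_of_injective _ (fun a b e => by
    simp only [ψ, Prod.mk.injEq, Option.some.injEq, true_and] at e
    exact Prod.ext (by omega) e.2)] at this
  omega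

end force

open Pool.Agent.Lib.helper5.PTree in
theorem main (C : ℕ) : ∃ (V : Type) (_ : Fintype V) (G T : SimpleGraph V) (B : V → Set V)
    (l : V → ℕ), T.IsTree ∧ (∀ v, v ∈ B v) ∧ (∀ u v, G.Adj u v → ∃ i, u ∈ B i ∧ v ∈ B i) ∧
    (∀ v, (T.induce {i | v ∈ B i}).Connected) ∧ (∀ u v, G.Adj u v → l u ≤ l v + 1) ∧
    (∀ i n, Set.ncard {x | x ∈ B i ∧ l x = n} ≤ 4) ∧
    (¬ ∃ φ : completeBipartiteGraph (Fin 2) (Fin 15) →g G, Function.Injective φ) ∧
    ∀ c : V → Fin 3, ∃ v,
      C < Set.ncard {u | (G ⊓ SimpleGraph.fromRel (fun x y => c x = c y)).Reachable v u} := by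
  classical
  set N := C + 1 with hN
  set F := (C + 1) * (C + 1) with hF
  set W := (N * C + 1) * N with hW
  let V := {x : R // val N F W x}
  have : Finite V := (fin_val N F W).to_subtype
  let root : V := ⟨([0], none), by simp, by simp [hN], by simp⟩
  let pr : V → V := fun x => if h : x = root then x else
    ⟨par x.1, (par_val x.2 fun e => h (Subtype.ext e)).1⟩
  have hpr : ∀ x, x ≠ root → (pr x).1 = par x.1 := fun x h => by simp [pr, h]
  have hrk : ∀ x, x ≠ root → rk (pr x).1 < rk x.1 := fun x h => by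
    rw [hpr x h]; exact (par_val x.2 fun e => h (Subtype.ext e)).2
  refine ⟨V, Fintype.ofFinite V, G0.induce {x | val N F W x}, PT root pr,
    fun x => {v | inb x.1 v.1}, fun x => lay x.1, isTree (fun x => rk x.1) hrk,
    fun v => inb_self v.2, ?_, ?_, fun u v h => lay_adj u.2 v.2 h, ?_, ?_, ?_⟩
  · rintro u v ⟨-, (h | h) | (h | h)⟩
    · exact ⟨v, inb_nxt h, inb_self v.2⟩
    · exact ⟨u, inb_self u.2, by have := inb_pa u.2; rwa [← show v.1 = pa u.1 from h] at this⟩
    · exact ⟨u, inb_self u.2, inb_nxt h⟩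
    · exact ⟨v, by have := inb_pa v.2; rwa [← show u.1 = pa v.1 from h] at this, inb_self v.2⟩
  · intro v
    refine sub_conn (fun x => rk x.1) hrk _ v (inb_self v.2) fun s hs hne => ?_
    obtain ⟨a, b⟩ := inb_par s.2 v.2 hs fun e => hne (Subtype.ext e)
    have hr : s ≠ root := fun e => a (congrArg Subtype.val e)
    exact ⟨hr, by show inb (pr s).1 v.1; rwa [hpr s hr]⟩
  · intro i n
    by_cases h : ∃ x : V, inb i.1 x.1 ∧ lay x.1 = n
    · obtain ⟨x, x1, x2⟩ := h
      have h4 := (inb_cand x1).2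
      rw [x2] at h4
      refine le_trans ?_ ((List.toFinset_card_le _).trans h4)
      rw [← Set.ncard_coe_finset]
      refine Set.ncard_le_ncard_of_injOn Subtype.val ?_ Subtype.val_injective.injOn
      rintro y ⟨y1, y2⟩
      have := (inb_cand y1).1
      rw [show lay y.1 = n from y2] at this
      simpa using this
    · have : {x : V | x ∈ {v : V | inb i.1 v.1} ∧ lay x.1 = n} = ∅ :=
        Set.eq_empty_iff_forall_notMem.2 fun x hx => h ⟨x, hx⟩
      rw [this]; simp
  · rintro ⟨φ, hφ⟩
    exact no_k (fun a => (φ a).1) (Subtype.val_injective.comp hφ)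
      fun a b => φ.map_adj (by simp)
  · intro c
    by_contra hn
    push Not at hn
    let c0 : R → Fin 3 := fun x => if h : val N F W x then c ⟨x, h⟩ else 0
    refine absurd_all (N := N) (F := F) (W := W) (C := C) (c := c0) ?_ hF hN hW
    intro v hv S hS
    refine le_trans ?_ (hn ⟨v, hv⟩)
    rw [← Set.ncard_coe_finset, ← Set.ncard_image_of_injective _ Subtype.val_injective]
    refine Set.ncard_le_ncard (fun y hy => ?_) (Set.toFinite _)
    have key : ∀ y, ReflTransGen (E N F W c0) v y → ∃ h : val N F W y,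
        ((G0.induce {x | val N F W x}) ⊓ SimpleGraph.fromRel (fun x y => c x = c y)).Reachable
          ⟨v, hv⟩ ⟨y, h⟩ := by
      intro y h
      induction h with
      | refl => exact ⟨hv, .refl _⟩
      | tail _ hbc ih =>
        obtain ⟨a1, a2, a3, a4⟩ := hbc
        obtain ⟨_, ih⟩ := ih
        refine ⟨a2, ih.trans (SimpleGraph.Adj.reachable ⟨a3, fun e => a3.ne
          (congrArg Subtype.val e), .inl ?_⟩)⟩
        simpa [c0, a1, a2] using a4
    obtain ⟨h, hr⟩ := key y (hS y hy)
    exact ⟨⟨y, h⟩, hr, rfl⟩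

lemma comp {V β : Type} (G : SimpleGraph V) (c : V → β) (v : V) :
    (∀ u, (G ⊓ SimpleGraph.fromRel (fun x y => c x = c y)).Reachable v u → c u = c v) ∧
    (G.induce {u | (G ⊓ SimpleGraph.fromRel (fun x y => c x = c y)).Reachable v u}).Connected := by
  constructor
  · intro u h
    rw [SimpleGraph.reachable_iff_reflTransGen] at h
    induction h with
    | refl => rfl
    | tail _ hbc ih => rw [← ih]; exact hbc.2.2.elim Eq.symm id
  · have key : ∀ u, ReflTransGen (G ⊓ SimpleGraph.fromRel (fun x y => c x = c y)).Adj v u →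
        ∃ h, (G.induce {u | (G ⊓ SimpleGraph.fromRel (fun x y => c x = c y)).Reachable v
          u}).Reachable ⟨v, SimpleGraph.Reachable.refl _⟩ ⟨u, h⟩ := by
      intro u h
      induction h with
      | refl => exact ⟨SimpleGraph.Reachable.refl _, .refl _⟩
      | tail _ hbc ih =>
        obtain ⟨h, ih⟩ := ih
        exact ⟨SimpleGraph.Reachable.trans h hbc.reachable,
          ih.trans (SimpleGraph.Adj.reachable hbc.1)⟩
    refine @SimpleGraph.Connected.mk _ _ (fun a b => ?_) ⟨⟨v, SimpleGraph.Reachable.refl _⟩⟩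
    obtain ⟨_, ha⟩ := key a.1 ((SimpleGraph.reachable_iff_reflTransGen _ _).1 a.2)
    obtain ⟨_, hb⟩ := key b.1 ((SimpleGraph.reachable_iff_reflTransGen _ _).1 b.2)
    exact ha.symm.trans hb

end Pool.Agent.H.MP_2b2760_co
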